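import Pool.Agent.Helper97.KT.Mean

open Finset

namespace Pool.Agent.Helper97.KT

lemma sum_inv_sq (B : ℕ) : (∑ i ∈ range B, (1 : ℝ) / (((i : ℝ) + 1) * (i + 2))) ≤ 1 - 1 / (B + 1) := by
  induction B with
  | zero => simp
  | succ B ih =>
    rw [Finset.sum_range_succ]
    have h : (1 : ℝ) / (((B : ℝ) + 1) * (B + 2)) = 1 / (B + 1) - 1 / (B + 2) := by
      field_simp
      ring
    push_cast
    have h2 : (B : ℝ) + 1 + 1 = B + 2 := by ring
    rw [h, h2]
    linarith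

lemma sum_sq_le {Q : ℕ → ℕ} (hQ : PS Q) (B x : ℕ) :
    (∑ i ∈ range B, 2 * ((x / Q i / Q i : ℕ) : ℝ)) ≤ 2 * x := by
  have h1 : ∀ i ∈ range B, 2 * ((x / Q i / Q i : ℕ) : ℝ)
      ≤ 2 * x * ((1 : ℝ) / (((i : ℝ) + 1) * (i + 2))) := by
    intro i _
    have hP : ((i : ℝ) + 2) ≤ Q i := by exact_mod_cast hQ.ge i
    have h2 : ((x / Q i / Q i : ℕ) : ℝ) ≤ (x : ℝ) / ((Q i * Q i : ℕ) : ℝ) := by
      rw [Nat.div_div_eq_div_mul]
      exact Nat.cast_div_le
    have hi : (0 : ℝ) ≤ i := Nat.cast_nonneg i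
    have h3 : (x : ℝ) / ((Q i * Q i : ℕ) : ℝ) ≤ x / (((i : ℝ) + 1) * (i + 2)) := by
      push_cast
      gcongr
      linarith
    have h4 : 2 * (x : ℝ) * ((1 : ℝ) / (((i : ℝ) + 1) * (i + 2)))
        = 2 * (x / (((i : ℝ) + 1) * (i + 2))) := by ring
    rw [h4]
    linarith
  calc _ ≤ ∑ i ∈ range B, 2 * x * ((1 : ℝ) / (((i : ℝ) + 1) * (i + 2))) := Finset.sum_le_sum h1
    _ = 2 * x * (∑ i ∈ range B, (1 : ℝ) / (((i : ℝ) + 1) * (i + 2))) := by rw [Finset.mul_sum]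
    _ ≤ 2 * x * 1 := by
        gcongr
        have := sum_inv_sq B
        have h5 : (0 : ℝ) ≤ 1 / (B + 1) := by positivity
        linarith
    _ = 2 * x := by ring

lemma block {T : ℕ → ℂ} (hT : ∀ y x : ℕ, y ≤ x → ‖T x - T y‖ ≤ (x : ℝ) - y)
    {s C : ℝ} (hs : 0 ≤ s) (hTs : ∀ x : ℕ, ‖T x‖ ≤ s * x + C)
    {u : ℕ → ℂ} (hu : ∀ i, ‖u i‖ ≤ 1) {d : ℕ} (hper : ∀ i, u (i + d) = u i)
    {θ : ℝ} (hθ0 : 0 ≤ θ) (hθ : ‖∑ j ∈ range d, u j‖ ≤ θ * d)
    {y : ℕ → ℕ} (hy : Antitone y) (K : ℕ) :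
    ‖∑ i ∈ range (d * K), u i * T (y i)‖
      ≤ θ * s * (∑ i ∈ range (d * K), (y i : ℝ)) + θ * d * C * K
        + (θ * s * d + d) * ((y 0 : ℝ) - y (d * K)) := by
  induction K with
  | zero => simp
  | succ K ih =>
    have hmul : d * (K + 1) = d * K + d := by ring
    have hperK : ∀ j, u (d * K + j) = u j := by
      intro j
      have : ∀ k, u (j + k * d) = u j := by
        intro k
        induction k with
        | zero => simp
        | succ k ihk =>
          have : j + (k + 1) * d = (j + k * d) + d := by ring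
          rw [this, hper, ihk]
      have h2 := this K
      rw [show d * K + j = j + K * d by ring]
      exact h2
    rw [hmul, Finset.sum_range_add, Finset.sum_range_add]
    have hstep : ‖∑ j ∈ range d, u (d * K + j) * T (y (d * K + j))‖
        ≤ θ * s * (∑ j ∈ range d, (y (d * K + j) : ℝ)) + θ * d * C
          + (θ * s * d + d) * ((y (d * K) : ℝ) - y (d * K + d)) := by
      set Y : ℕ := y (d * K) with hY
      have hsumdiff : (∑ j ∈ range d, ((Y : ℝ) - y (d * K + j)))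
          ≤ d * ((Y : ℝ) - y (d * K + d)) := by
        calc _ ≤ ∑ j ∈ range d, ((Y : ℝ) - y (d * K + d)) := by
              refine Finset.sum_le_sum fun j hj => ?_
              rw [Finset.mem_range] at hj
              have : y (d * K + d) ≤ y (d * K + j) := hy (by omega)
              have h' : ((y (d * K + d) : ℕ) : ℝ) ≤ y (d * K + j) := by exact_mod_cast this
              linarith
          _ = _ := by
              rw [Finset.sum_const, Finset.card_range, nsmul_eq_mul]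
      have h1 : (∑ j ∈ range d, u (d * K + j) * T (y (d * K + j)))
          = (∑ j ∈ range d, u j) * T Y - ∑ j ∈ range d, u j * (T Y - T (y (d * K + j))) := by
        rw [Finset.sum_mul, ← Finset.sum_sub_distrib]
        refine Finset.sum_congr rfl fun j _ => ?_
        rw [hperK]
        ring
      have h2 : ‖∑ j ∈ range d, u j * (T Y - T (y (d * K + j)))‖
          ≤ d * ((Y : ℝ) - y (d * K + d)) := by
        refine le_trans ?_ hsumdiff
        refine le_trans (norm_sum_le _ _) ?_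
        refine Finset.sum_le_sum fun j _ => ?_
        rw [norm_mul]
        have hle : y (d * K + j) ≤ Y := hy (by omega)
        calc ‖u j‖ * ‖T Y - T (y (d * K + j))‖ ≤ 1 * ((Y : ℝ) - y (d * K + j)) := by
              gcongr
              · exact hu j
              · exact hT _ _ hle
          _ = _ := one_mul _
      have h3 : ‖(∑ j ∈ range d, u j) * T Y‖ ≤ θ * d * (s * Y + C) := by
        rw [norm_mul]
        have h0 : 0 ≤ ‖T Y‖ := norm_nonneg _
        calc _ ≤ (θ * d) * ‖T Y‖ := mul_le_mul_of_nonneg_right hθ h0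
          _ ≤ _ := mul_le_mul_of_nonneg_left (hTs Y) (by positivity)
      have h4 : (d : ℝ) * Y = (∑ j ∈ range d, (y (d * K + j) : ℝ))
          + ∑ j ∈ range d, ((Y : ℝ) - y (d * K + j)) := by
        rw [← Finset.sum_add_distrib]
        simp
      rw [h1]
      have h5 := norm_sub_le ((∑ j ∈ range d, u j) * T Y)
        (∑ j ∈ range d, u j * (T Y - T (y (d * K + j))))
      have h6 : θ * s * ((d : ℝ) * Y) ≤ θ * s * ((∑ j ∈ range d, (y (d * K + j) : ℝ))
          + d * ((Y : ℝ) - y (d * K + d))) := by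
        apply mul_le_mul_of_nonneg_left _ (by positivity)
        linarith
      nlinarith
    have hnorm := norm_add_le (∑ i ∈ range (d * K), u i * T (y i))
      (∑ j ∈ range d, u (d * K + j) * T (y (d * K + j)))
    push_cast
    nlinarith

/-- The contraction step. -/
lemma step {Q : ℕ → ℕ} (hQ : PS Q) {F : ℕ → ℂ} (hF : ∀ n, ‖F n‖ ≤ 1) {u : ℕ → ℂ} (hu : ∀ i, ‖u i‖ ≤ 1)
    (hmul : ∀ i m, 0 < m → ¬ Q i ∣ m → F (Q i * m) = u i * F m)
    {d : ℕ} (hd : 0 < d) (hper : ∀ i, u (i + d) = u i)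
    {θ : ℝ} (hθ0 : 0 ≤ θ) (hθ : ‖∑ j ∈ range d, u j‖ ≤ θ * d)
    {s C : ℝ} (hs : 0 ≤ s) (hs1 : s ≤ 2) (hC : ∀ x : ℕ, ‖S F x‖ ≤ s * x + C)
    {ε : ℝ} (hε : 0 < ε) :
    ∃ C' : ℝ, ∀ x : ℕ, ‖S F x‖ ≤ (θ * s + ε) * x + C' := by
  -- choose K
  obtain ⟨B₀, hB₀⟩ := hQ.unb (4 / ε ^ 2 + (2 * (2 + 2 * θ * d + d)) / ε + 1)
  set K := B₀ with hK
  set B := d * K with hB
  have hBB : B₀ ≤ B := by
    rw [hB, hK]
    exact Nat.le_mul_of_pos_left _ hd
  have hLB : 4 / ε ^ 2 + (2 * (2 + 2 * θ * d + d)) / ε + 1 ≤ L Q B := hB₀.trans (L_mono Q hBB)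
  have hd0 : (0 : ℝ) ≤ d := Nat.cast_nonneg d
  have hpos1 : 0 ≤ 4 / ε ^ 2 := by positivity
  have hpos2 : 0 ≤ (2 * (2 + 2 * θ * d + d)) / ε := by positivity
  have hL1 : 1 ≤ L Q B := by linarith
  have hL0 : 0 < L Q B := by linarith
  refine ⟨(B * Real.sqrt (L Q B) + θ * d * C * K) / L Q B, fun x => ?_⟩
  -- main inequality
  have hmain : L Q B * ‖S F x‖ ≤ (x * Real.sqrt (L Q B) + B * Real.sqrt (L Q B)) + 2 * x
      + (θ * s * (x * L Q B) + θ * d * C * K + (θ * s * d + d) * x) := by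
    have h1 : (L Q B : ℂ) * S F x
        = (∑ n ∈ Ioc 0 x, ((L Q B : ℂ) - (om Q B n : ℂ)) * F n)
          + ∑ i ∈ range B, ∑ n ∈ Ioc 0 x, F n * (if Q i ∣ n then (1 : ℂ) else 0) := by
      have h2 : (∑ i ∈ range B, ∑ n ∈ Ioc 0 x, F n * (if Q i ∣ n then (1 : ℂ) else 0))
          = ∑ n ∈ Ioc 0 x, (om Q B n : ℂ) * F n := by
        rw [Finset.sum_comm]
        refine Finset.sum_congr rfl fun n _ => ?_
        unfold om
        push_cast
        rw [Finset.sum_mul]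
        refine Finset.sum_congr rfl fun i _ => ?_
        split_ifs <;> simp
      rw [h2, ← Finset.sum_add_distrib]
      unfold S
      rw [Finset.mul_sum]
      refine Finset.sum_congr rfl fun n _ => ?_
      ring
    have h2 : ‖∑ n ∈ Ioc 0 x, ((L Q B : ℂ) - (om Q B n : ℂ)) * F n‖
        ≤ x * Real.sqrt (L Q B) + B * Real.sqrt (L Q B) := by
      refine le_trans ?_ (sum_abs hQ B x hL0)
      refine le_trans (norm_sum_le _ _) ?_
      refine Finset.sum_le_sum fun n _ => ?_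
      rw [norm_mul]
      have h3 : ‖(L Q B : ℂ) - (om Q B n : ℂ)‖ = |om Q B n - L Q B| := by
        rw [← Complex.ofReal_sub, Complex.norm_real, Real.norm_eq_abs, abs_sub_comm]
      rw [h3]
      calc _ ≤ |om Q B n - L Q B| * 1 := mul_le_mul_of_nonneg_left (hF n) (abs_nonneg _)
        _ = _ := mul_one _
    have h3 : ‖(∑ i ∈ range B, ∑ n ∈ Ioc 0 x, F n * (if Q i ∣ n then (1 : ℂ) else 0))
        - ∑ i ∈ range B, u i * S F (x / Q i)‖ ≤ 2 * x := by
      rw [← Finset.sum_sub_distrib]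
      refine le_trans (norm_sum_le _ _) (le_trans ?_ (sum_sq_le hQ B x))
      refine Finset.sum_le_sum fun i _ => ?_
      exact per_prime hF (hu i) (Q i) x (hQ.pos i) (hmul i)
    have hanti : Antitone (fun i => x / Q i) := by
      intro i j hij
      exact Nat.div_le_div_left (hQ.mono.monotone hij) (hQ.pos i)
    have h4 := block (T := S F) (fun y x h => S_diff hF h) hs hC hu hper hθ0 hθ hanti K
    have h5 : (∑ i ∈ range (d * K), ((x / Q i : ℕ) : ℝ)) ≤ x * L Q B := by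
      unfold L
      rw [Finset.mul_sum]
      refine Finset.sum_le_sum fun i _ => ?_
      have : ((x / Q i : ℕ) : ℝ) ≤ (x : ℝ) / Q i := Nat.cast_div_le
      calc _ ≤ (x : ℝ) / Q i := this
        _ = _ := by ring
    have h6 : (((x / Q 0 : ℕ) : ℝ) - ((x / Q (d * K) : ℕ) : ℝ)) ≤ x := by
      have h7 : ((x / Q 0 : ℕ) : ℝ) ≤ x := by exact_mod_cast Nat.div_le_self _ _
      have h8 : (0 : ℝ) ≤ ((x / Q (d * K) : ℕ) : ℝ) := Nat.cast_nonneg _
      linarith
    have h9 : ‖∑ i ∈ range B, u i * S F (x / Q i)‖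
        ≤ θ * s * (x * L Q B) + θ * d * C * K + (θ * s * d + d) * x := by
      refine h4.trans ?_
      have e1 : θ * s * (∑ i ∈ range (d * K), ((x / Q i : ℕ) : ℝ)) ≤ θ * s * (x * L Q B) :=
        mul_le_mul_of_nonneg_left h5 (by positivity)
      have e2 : (θ * s * d + d) * (((x / Q 0 : ℕ) : ℝ) - ((x / Q (d * K) : ℕ) : ℝ))
          ≤ (θ * s * d + d) * x := mul_le_mul_of_nonneg_left h6 (by positivity)
      linarith
    have h10 : ‖(L Q B : ℂ) * S F x‖ = L Q B * ‖S F x‖ := by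
      rw [norm_mul, Complex.norm_real, Real.norm_of_nonneg hL0.le]
    rw [← h10, h1]
    set X1 := ∑ n ∈ Ioc 0 x, ((L Q B : ℂ) - (om Q B n : ℂ)) * F n
    set X2 := ∑ i ∈ range B, ∑ n ∈ Ioc 0 x, F n * (if Q i ∣ n then (1 : ℂ) else 0)
    set X3 := ∑ i ∈ range B, u i * S F (x / Q i)
    have e3 : X1 + X2 = X1 + (X2 - X3) + X3 := by ring
    rw [e3]
    have e4 := norm_add_le (X1 + (X2 - X3)) X3
    have e5 := norm_add_le X1 (X2 - X3)
    linarith
  -- divide by L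
  have hsq : Real.sqrt (L Q B) ≤ ε / 2 * L Q B := by
    rw [Real.sqrt_le_left (by positivity)]
    have h1 : 4 / ε ^ 2 ≤ L Q B := by linarith
    have h2 : 4 ≤ L Q B * ε ^ 2 := by
      rwa [div_le_iff₀ (by positivity)] at h1
    nlinarith
  have hlin : 2 + (θ * s * d + d) ≤ ε / 2 * L Q B := by
    have h1 : (2 * (2 + 2 * θ * d + d)) / ε ≤ L Q B := by linarith
    rw [div_le_iff₀ hε] at h1
    have h2 : θ * s * d ≤ 2 * θ * d := by
      have : θ * d * s ≤ θ * d * 2 := mul_le_mul_of_nonneg_left hs1 (by positivity)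
      linarith
    linarith
  have hx : (0 : ℝ) ≤ x := Nat.cast_nonneg x
  have e1 : (x : ℝ) * Real.sqrt (L Q B) ≤ x * (ε / 2 * L Q B) := mul_le_mul_of_nonneg_left hsq hx
  have e2 : (x : ℝ) * (2 + (θ * s * d + d)) ≤ x * (ε / 2 * L Q B) :=
    mul_le_mul_of_nonneg_left hlin hx
  have hfin : L Q B * ‖S F x‖ ≤ L Q B * ((θ * s + ε) * x
      + (B * Real.sqrt (L Q B) + θ * d * C * K) / L Q B) := by
    have h3 : L Q B * ((θ * s + ε) * x + (B * Real.sqrt (L Q B) + θ * d * C * K) / L Q B)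
        = (θ * s + ε) * x * L Q B + (B * Real.sqrt (L Q B) + θ * d * C * K) := by
      field_simp
    rw [h3]
    linarith
  exact le_of_mul_le_mul_left hfin hL0

/-- Mean value zero. -/
theorem mean_zero {Q : ℕ → ℕ} (hQ : PS Q) {F : ℕ → ℂ} (hF : ∀ n, ‖F n‖ ≤ 1) {u : ℕ → ℂ} (hu : ∀ i, ‖u i‖ ≤ 1)
    (hmul : ∀ i m, 0 < m → ¬ Q i ∣ m → F (Q i * m) = u i * F m)
    {d : ℕ} (hd : 0 < d) (hper : ∀ i, u (i + d) = u i)
    {θ : ℝ} (hθ0 : 0 ≤ θ) (hθ1 : θ < 1) (hθ : ‖∑ j ∈ range d, u j‖ ≤ θ * d)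
    {ε : ℝ} (hε : 0 < ε) :
    ∃ C : ℝ, ∀ x : ℕ, ‖S F x‖ ≤ ε * x + C := by
  have key : ∀ k : ℕ, ∀ ε : ℝ, 0 < ε → ε ≤ 1 →
      ∃ C : ℝ, ∀ x : ℕ, ‖S F x‖ ≤ (θ ^ k + ε) * x + C := by
    intro k
    induction k with
    | zero =>
      intro ε hε _
      refine ⟨0, fun x => ?_⟩
      have := S_le hF x
      have hx : (0 : ℝ) ≤ x := Nat.cast_nonneg x
      have : 0 ≤ ε * x := by positivity
      simp
      nlinarith
    | succ k ih =>
      intro ε hε hε1
      obtain ⟨C, hC⟩ := ih (ε / 2) (by positivity) (by linarith)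
      have hpow : θ ^ k ≤ 1 := pow_le_one₀ hθ0 hθ1.le
      have hpow0 : 0 ≤ θ ^ k := pow_nonneg hθ0 k
      obtain ⟨C', hC'⟩ := step hQ hF hu hmul hd hper hθ0 hθ (s := θ ^ k + ε / 2) (by positivity)
        (by linarith) hC (ε := ε / 2) (by positivity)
      refine ⟨C', fun x => (hC' x).trans ?_⟩
      have hx : (0 : ℝ) ≤ x := Nat.cast_nonneg x
      have h1 : θ * (θ ^ k + ε / 2) + ε / 2 ≤ θ ^ (k + 1) + ε := by
        rw [pow_succ]
        nlinarith
      have := mul_le_mul_of_nonneg_right h1 hx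
      linarith
  obtain ⟨k, hk⟩ := exists_pow_lt_of_lt_one (show 0 < min ε 1 / 2 by positivity) hθ1
  obtain ⟨C, hC⟩ := key k (min ε 1 / 2) (by positivity) (by
    have := min_le_right ε 1
    linarith)
  refine ⟨C, fun x => (hC x).trans ?_⟩
  have hx : (0 : ℝ) ≤ x := Nat.cast_nonneg x
  have h1 : θ ^ k + min ε 1 / 2 ≤ ε := by
    have := min_le_left ε 1
    linarith
  have := mul_le_mul_of_nonneg_right h1 hx
  linarith

end Pool.Agent.Helper97.KT
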