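import Pool.Agent.Helper97.KT.Block

open Finset Filter Topology

namespace Pool.Agent.Helper97.KT

/-- `a(n) = ∑_{q prime, q ∣ n} 2^{π(q)-1}`, `a(0) = 0`. -/
def enc (n : ℕ) : ℕ := ∑ q ∈ n.primeFactors, 2 ^ (Nat.primeCounting q - 1)

lemma enc_mul {i m : ℕ} (hm : 0 < m) (h : ¬ P i ∣ m) : enc (P i * m) = 2 ^ i + enc m := by
  unfold enc
  rw [Nat.primeFactors_mul (P_pos i).ne' hm.ne', (P_prime i).primeFactors,
    Finset.sum_union, Finset.sum_singleton, primeCounting_P]
  · simp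
  · rw [Finset.disjoint_singleton_left]
    intro hmem
    exact h (Nat.dvd_of_mem_primeFactors hmem)

lemma norm_one_add_lt {z : ℂ} (hz : ‖z‖ = 1) (h1 : z ≠ 1) : ‖1 + z‖ < 2 := by
  have hsq : z.re ^ 2 + z.im ^ 2 = 1 := by
    have := Complex.sq_norm z
    rw [hz, Complex.normSq_apply] at this
    nlinarith
  have hre : z.re < 1 := by
    by_contra hcon
    push Not at hcon
    have him : z.im ^ 2 ≤ 0 := by nlinarith
    have him0 : z.im = 0 := by
      have := sq_nonneg z.im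
      exact pow_eq_zero_iff (two_ne_zero) |>.1 (le_antisymm him this)
    have hre1 : z.re = 1 := by
      have : z.re ^ 2 = 1 := by rw [him0] at hsq; linarith
      nlinarith
    exact h1 (Complex.ext (by simpa using hre1) (by simpa using him0))
  have h2 : ‖1 + z‖ ^ 2 < 2 ^ 2 := by
    rw [Complex.sq_norm, Complex.normSq_apply]
    simp only [Complex.add_re, Complex.one_re, Complex.add_im, Complex.one_im]
    nlinarith
  exact lt_of_pow_lt_pow_left₀ 2 (by norm_num) h2

/-- The exponential sums of `a`, twisted by a weight which only depends on the divisibility by the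
first `k` primes, are `o(x)`. -/
theorem expsum {M : ℕ} (hM : Odd M) {z : ℂ} (hz : z ^ M = 1) (hz1 : z ≠ 1) (k : ℕ) {g : ℕ → ℂ}
    (hg : ∀ n, ‖g n‖ ≤ 1)
    (hgm : ∀ i m, 0 < m → ¬ P (k + i) ∣ m → g (P (k + i) * m) = g m) {ε : ℝ} (hε : 0 < ε) :
    ∃ C : ℝ, ∀ x : ℕ, ‖∑ n ∈ Ioc 0 x, g n * z ^ enc n‖ ≤ ε * x + C := by
  have hM0 : M ≠ 0 := by rintro rfl; simp at hM
  have hM1 : M ≠ 1 := by rintro rfl; exact hz1 (by simpa using hz)
  have hM2 : 2 < M := by
    obtain ⟨k, hk⟩ := hM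
    omega
  have hcop : Nat.Coprime 2 M := (Nat.coprime_two_left).2 hM
  have hnz : ‖z‖ = 1 := Complex.norm_eq_one_of_pow_eq_one hz hM0
  set w : ℂ := z ^ (2 ^ k) with hw
  have hnw : ‖w‖ = 1 := by rw [hw, norm_pow, hnz, one_pow]
  have hwM : w ^ M = 1 := by rw [hw, ← pow_mul, mul_comm, pow_mul, hz, one_pow]
  have hw1 : w ≠ 1 := by
    intro h
    have h1 : z ^ Nat.gcd (2 ^ k) M = 1 := pow_gcd_eq_one.2 ⟨h, hz⟩
    have h2 : Nat.gcd (2 ^ k) M = 1 := Nat.Coprime.pow_left k hcop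
    rw [h2, pow_one] at h1
    exact hz1 h1
  set d := Nat.totient M with hd
  have hd0 : 0 < d := Nat.totient_pos.2 (by omega)
  have hd2 : 2 ≤ d := by
    obtain ⟨k, hk⟩ := Nat.totient_even hM2
    omega
  have hper : ∀ i : ℕ, w ^ (2 ^ (i + d)) = w ^ (2 ^ i) := by
    intro i
    have h1 : 2 ^ (i + d) ≡ 2 ^ i [MOD M] := by
      rw [pow_add]
      simpa using (Nat.ModEq.refl (2 ^ i)).mul (Nat.ModEq.pow_totient hcop)
    rw [pow_eq_pow_mod (2 ^ (i + d)) hwM, pow_eq_pow_mod (2 ^ i) hwM, h1]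
  set t := ‖1 + w‖ with ht
  have ht2 : t < 2 := norm_one_add_lt hnw hw1
  have ht0 : 0 ≤ t := norm_nonneg _
  have hdR : (0 : ℝ) < d := by exact_mod_cast hd0
  have hd2R : (2 : ℝ) ≤ d := by exact_mod_cast hd2
  set θ : ℝ := (t + (d - 2)) / d with hθ
  have hθ0 : 0 ≤ θ := by
    rw [hθ]
    apply div_nonneg _ hdR.le
    linarith
  have hθ1 : θ < 1 := by
    rw [hθ, div_lt_one hdR]
    linarith
  have hsum : ‖∑ j ∈ range d, w ^ (2 ^ j)‖ ≤ θ * d := by
    have h1 : θ * d = t + (d - 2) := by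
      rw [hθ]
      field_simp
    rw [h1]
    obtain ⟨e, he⟩ : ∃ e, d = 2 + e := ⟨d - 2, by omega⟩
    rw [he, Finset.sum_range_add]
    have h2 : ‖∑ j ∈ range 2, w ^ (2 ^ j)‖ = t := by
      rw [Finset.sum_range_succ, Finset.sum_range_succ, Finset.sum_range_zero]
      have : 0 + w ^ (2 ^ 0) + w ^ (2 ^ 1) = w * (1 + w) := by ring
      rw [this, norm_mul, hnw, one_mul]
    have h3 : ‖∑ j ∈ range e, w ^ (2 ^ (2 + j))‖ ≤ e := by
      refine (norm_sum_le _ _).trans ?_
      have : ∀ j ∈ range e, ‖w ^ (2 ^ (2 + j))‖ = 1 := by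
        intro j _
        rw [norm_pow, hnw, one_pow]
      rw [Finset.sum_congr rfl this]
      simp
    refine (norm_add_le _ _).trans ?_
    rw [h2]
    push_cast
    linarith
  exact mean_zero (PS_shift k) (F := fun n => g n * z ^ enc n) (u := fun i => w ^ (2 ^ i))
    (fun n => by rw [norm_mul, norm_pow, hnz, one_pow, mul_one]; exact hg n)
    (fun i => by rw [norm_pow, hnw, one_pow])
    (fun i m hm h => by
      show g (P (k + i) * m) * z ^ enc (P (k + i) * m) = w ^ (2 ^ i) * (g m * z ^ enc m)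
      rw [enc_mul hm h, hgm i m hm h, pow_add, hw, ← pow_mul, ← pow_add]
      ring)
    hd0 hper hθ0 hθ1 hsum hε

/-- `c(x) = δ x + o(x)` -/
def Asy (c : ℕ → ℝ) (δ : ℝ) : Prop := ∀ ε : ℝ, 0 < ε → ∃ C : ℝ, ∀ x : ℕ, |c x - δ * x| ≤ ε * x + C

lemma Asy.add {c₁ c₂ : ℕ → ℝ} {δ₁ δ₂ : ℝ} (h₁ : Asy c₁ δ₁) (h₂ : Asy c₂ δ₂) :
    Asy (fun x => c₁ x + c₂ x) (δ₁ + δ₂) := by
  intro ε hε
  obtain ⟨C₁, hC₁⟩ := h₁ (ε / 2) (by positivity)
  obtain ⟨C₂, hC₂⟩ := h₂ (ε / 2) (by positivity)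
  refine ⟨C₁ + C₂, fun x => ?_⟩
  have e : c₁ x + c₂ x - (δ₁ + δ₂) * x = (c₁ x - δ₁ * x) + (c₂ x - δ₂ * x) := by ring
  show |c₁ x + c₂ x - (δ₁ + δ₂) * x| ≤ _
  rw [e]
  have := abs_add_le (c₁ x - δ₁ * x) (c₂ x - δ₂ * x)
  have h1 := hC₁ x
  have h2 := hC₂ x
  linarith

lemma Asy.const_mul {c : ℕ → ℝ} {δ : ℝ} (h : Asy c δ) (k : ℝ) :
    Asy (fun x => k * c x) (k * δ) := by
  intro ε hε
  obtain ⟨C, hC⟩ := h (ε / (|k| + 1)) (by positivity)
  refine ⟨(|k| + 1) * |C|, fun x => ?_⟩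
  show |k * c x - k * δ * x| ≤ _
  have e : k * c x - k * δ * x = k * (c x - δ * x) := by ring
  rw [e, abs_mul]
  have h1 := hC x
  have h0 : 0 ≤ |c x - δ * x| := abs_nonneg _
  have hk : 0 ≤ |k| := abs_nonneg _
  have hC' : C ≤ |C| := le_abs_self C
  calc |k| * |c x - δ * x| ≤ (|k| + 1) * |c x - δ * x| := by nlinarith
    _ ≤ (|k| + 1) * (ε / (|k| + 1) * x + |C|) := by
        apply mul_le_mul_of_nonneg_left _ (by positivity)
        linarith
    _ = ε * x + (|k| + 1) * |C| := by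
        field_simp

lemma Asy.zero : Asy (fun _ => 0) 0 := by
  intro ε hε
  refine ⟨0, fun x => ?_⟩
  have : (0 : ℝ) ≤ ε * x := by positivity
  simpa using this

lemma Asy.id : Asy (fun x => (x : ℝ)) 1 := by
  intro ε hε
  refine ⟨0, fun x => ?_⟩
  have : (0 : ℝ) ≤ ε * x := by positivity
  simpa using this

lemma Asy.sum {ι : Type*} (s : Finset ι) {c : ι → ℕ → ℝ} {δ : ι → ℝ}
    (h : ∀ i ∈ s, Asy (c i) (δ i)) : Asy (fun x => ∑ i ∈ s, c i x) (∑ i ∈ s, δ i) := by
  classical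
  induction s using Finset.induction_on with
  | empty => simpa using Asy.zero
  | insert a s ha ih =>
    have h1 := (h a (Finset.mem_insert_self a s)).add
      (ih fun i hi => h i (Finset.mem_insert_of_mem hi))
    rw [Finset.sum_insert ha]
    have : (fun x => ∑ i ∈ insert a s, c i x) = fun x => c a x + ∑ i ∈ s, c i x := by
      funext x
      rw [Finset.sum_insert ha]
    rw [this]
    exact h1

lemma Asy.tendsto {c : ℕ → ℝ} {δ : ℝ} (h : Asy c δ) :
    Tendsto (fun x : ℕ => c x / x) atTop (𝓝 δ) := by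
  rw [Metric.tendsto_atTop]
  intro ε hε
  obtain ⟨C, hC⟩ := h (ε / 2) (by positivity)
  obtain ⟨N, hN⟩ := exists_nat_gt (2 * |C| / ε)
  refine ⟨N + 1, fun x hx => ?_⟩
  have hx0 : (0 : ℝ) < x := by
    have : 0 < x := by omega
    exact_mod_cast this
  have hxN : (N : ℝ) < x := by
    have : N < x := by omega
    exact_mod_cast this
  rw [Real.dist_eq]
  have e : c x / x - δ = (c x - δ * x) / x := by
    field_simp
  rw [e, abs_div, abs_of_pos hx0, div_lt_iff₀ hx0]
  have h1 := hC x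
  have h2 : 2 * |C| < ε * x := by
    have : 2 * |C| / ε < x := hN.trans hxN
    rw [div_lt_iff₀ hε] at this
    linarith
  have h3 : C ≤ |C| := le_abs_self C
  linarith

/-- Equidistribution modulo every odd number, on a set which only depends on the divisibility by the
first `k` primes. -/
theorem equi {M : ℕ} (hM : Odd M) (r k : ℕ) (p : ℕ → Prop) [DecidablePred p]
    (hp : ∀ i m, 0 < m → ¬ P (k + i) ∣ m → (p (P (k + i) * m) ↔ p m)) {δ : ℝ}
    (hδ : Asy (fun x => (((Ioc 0 x).filter p).card : ℝ)) δ) :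
    Asy (fun x => (((Ioc 0 x).filter (fun n => p n ∧ enc n % M = r % M)).card : ℝ)) (δ / M) := by
  have hM0 : M ≠ 0 := by rintro rfl; simp at hM
  have hMpos : 0 < M := Nat.pos_of_ne_zero hM0
  have hMR : (0 : ℝ) < M := by exact_mod_cast hMpos
  set z : ℂ := Complex.exp (2 * Real.pi * Complex.I / M) with hzdef
  have hz : IsPrimitiveRoot z M := Complex.isPrimitiveRoot_exp M hM0
  set r' := r % M with hr'
  have hrM : r' < M := Nat.mod_lt _ hMpos
  set t : ℕ → ℕ := fun n => enc n + (M - r') with ht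
  set g : ℕ → ℂ := fun n => if p n then 1 else 0 with hgdef
  have hg1 : ∀ n, ‖g n‖ ≤ 1 := by
    intro n
    rw [hgdef]
    by_cases h : p n <;> simp [h]
  have hgm : ∀ i m, 0 < m → ¬ P (k + i) ∣ m → g (P (k + i) * m) = g m := by
    intro i m hm h
    rw [hgdef]
    simp only [hp i m hm h]
  have hdiv : ∀ n, M ∣ t n ↔ enc n % M = r' := by
    intro n
    have h1 : (t n) % M = (enc n % M + (M - r')) % M := by
      rw [ht]
      simp [Nat.add_mod]
    have h2 : enc n % M < M := Nat.mod_lt _ hMpos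
    rw [Nat.dvd_iff_mod_eq_zero, h1]
    constructor
    · intro h
      obtain ⟨k, hk⟩ := Nat.dvd_of_mod_eq_zero h
      have hk1 : k = 1 := by
        have h3 : enc n % M + (M - r') < 2 * M := by omega
        have h4 : 0 < enc n % M + (M - r') := by omega
        rw [hk] at h3 h4
        have h5 : k < 2 := by
          by_contra hcon
          push Not at hcon
          have : M * 2 ≤ M * k := Nat.mul_le_mul_left M hcon
          omega
        have h6 : k ≠ 0 := by rintro rfl; simp at h4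
        omega
      rw [hk1] at hk
      omega
    · intro h
      have : enc n % M + (M - r') = M := by omega
      rw [this, Nat.mod_self]
  have hchar : ∀ n, (∑ h ∈ range M, (z ^ h) ^ (t n))
      = if enc n % M = r' then (M : ℂ) else 0 := by
    intro n
    by_cases hd : M ∣ t n
    · rw [if_pos ((hdiv n).1 hd)]
      have : ∀ h ∈ range M, (z ^ h) ^ (t n) = 1 := by
        intro h _
        obtain ⟨k, hk⟩ := hd
        rw [hk, ← pow_mul, show h * (M * k) = M * (h * k) by ring, pow_mul, hz.pow_eq_one, one_pow]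
      rw [Finset.sum_congr rfl this]
      simp
    · rw [if_neg (fun h => hd ((hdiv n).2 h))]
      have h1 : z ^ (t n) ≠ 1 := fun h => hd (hz.dvd_of_pow_eq_one _ h)
      have h2 : ∀ h ∈ range M, (z ^ h) ^ (t n) = (z ^ (t n)) ^ h := by
        intro h _
        rw [← pow_mul, ← pow_mul, mul_comm]
      rw [Finset.sum_congr rfl h2, geom_sum_eq h1, ← pow_mul, mul_comm, pow_mul, hz.pow_eq_one,
        one_pow, sub_self, zero_div]
  intro ε hε
  obtain ⟨C₀, hC₀⟩ := hδ (ε / 2) (by positivity)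
  -- the error terms
  have herr : ∀ h ∈ (range M).erase 0, ∃ C : ℝ, ∀ x : ℕ,
      ‖∑ n ∈ Ioc 0 x, g n * (z ^ h) ^ enc n‖ ≤ ε / 2 * x + C := by
    intro h hh
    rw [Finset.mem_erase, Finset.mem_range] at hh
    apply expsum hM _ _ k hg1 hgm (by positivity)
    · rw [← pow_mul, mul_comm, pow_mul, hz.pow_eq_one, one_pow]
    · exact hz.pow_ne_one_of_pos_of_lt hh.1 hh.2
  choose! C hC using herr
  refine ⟨(|C₀| + ∑ h ∈ (range M).erase 0, C h) / M + |C₀|, fun x => ?_⟩
  set N : ℝ := (((Ioc 0 x).filter (fun n => p n ∧ enc n % M = r')).card : ℝ) with hN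
  set N₀ : ℝ := (((Ioc 0 x).filter p).card : ℝ) with hN₀
  have hcount : ((N * M : ℝ) : ℂ)
      = (N₀ : ℂ) + ∑ h ∈ (range M).erase 0, (z ^ h) ^ (M - r') *
          ∑ n ∈ Ioc 0 x, g n * (z ^ h) ^ enc n := by
    have h1 : ((N * M : ℝ) : ℂ)
        = ∑ n ∈ Ioc 0 x, g n * ∑ h ∈ range M, (z ^ h) ^ (t n) := by
      have h2 : ∀ n ∈ Ioc 0 x, g n * ∑ h ∈ range M, (z ^ h) ^ (t n)
          = if p n ∧ enc n % M = r' then (M : ℂ) else 0 := by
        intro n _
        rw [hchar n, hgdef]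
        by_cases h1 : p n <;> by_cases h2 : enc n % M = r' <;> simp [h1, h2]
      rw [Finset.sum_congr rfl h2, ← Finset.sum_filter, Finset.sum_const, hN]
      push_cast
      simp
    have h3 : (∑ n ∈ Ioc 0 x, g n * ∑ h ∈ range M, (z ^ h) ^ (t n))
        = ∑ h ∈ range M, ∑ n ∈ Ioc 0 x, g n * (z ^ h) ^ (t n) := by
      rw [Finset.sum_comm]
      refine Finset.sum_congr rfl fun n _ => ?_
      rw [Finset.mul_sum]
    rw [h1, h3]
    rw [← Finset.add_sum_erase (range M) _ (Finset.mem_range.2 hMpos)]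
    congr 1
    · rw [hN₀, hgdef]
      simp
    · refine Finset.sum_congr rfl fun h _ => ?_
      rw [Finset.mul_sum]
      refine Finset.sum_congr rfl fun n _ => ?_
      rw [ht]
      simp only
      rw [pow_add]
      ring
  have hb : |N * M - N₀| ≤ ∑ h ∈ (range M).erase 0, (ε / 2 * x + C h) := by
    have h1 : ((N * M - N₀ : ℝ) : ℂ)
        = ∑ h ∈ (range M).erase 0, (z ^ h) ^ (M - r') *
          ∑ n ∈ Ioc 0 x, g n * (z ^ h) ^ enc n := by
      rw [Complex.ofReal_sub, hcount]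
      simp
    rw [← Real.norm_eq_abs, ← Complex.norm_real, h1]
    refine (norm_sum_le _ _).trans (Finset.sum_le_sum fun h hh => ?_)
    rw [norm_mul]
    have hn : ‖(z ^ h) ^ (M - r')‖ = 1 := by
      have : ‖z‖ = 1 := Complex.norm_eq_one_of_pow_eq_one hz.pow_eq_one hM0
      rw [norm_pow, norm_pow, this, one_pow, one_pow]
    rw [hn, one_mul]
    exact hC h hh x
  have hcardle : (((range M).erase 0).card : ℝ) ≤ M := by
    have : ((range M).erase 0).card ≤ (range M).card := Finset.card_erase_le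
    rw [Finset.card_range] at this
    exact_mod_cast this
  rw [Finset.sum_add_distrib, Finset.sum_const, nsmul_eq_mul] at hb
  have hx : (0 : ℝ) ≤ x := Nat.cast_nonneg x
  have h2 : (((range M).erase 0).card : ℝ) * (ε / 2 * x) ≤ M * (ε / 2 * x) :=
    mul_le_mul_of_nonneg_right hcardle (by positivity)
  have h3 : |N₀ - δ * x| ≤ ε / 2 * x + C₀ := hC₀ x
  have h4 : C₀ ≤ |C₀| := le_abs_self C₀
  have hM1 : (1 : ℝ) ≤ M := by exact_mod_cast hMpos
  have e : N - δ / M * x = ((N * M - N₀) + (N₀ - δ * x)) / M := by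
    field_simp
    ring
  show |N - δ / M * x| ≤ _
  rw [e, abs_div, abs_of_pos hMR, div_le_iff₀ hMR]
  have e2 : (ε * x + ((|C₀| + ∑ h ∈ (range M).erase 0, C h) / M + |C₀|)) * M
      = M * (ε * x) + (|C₀| + ∑ h ∈ (range M).erase 0, C h) + |C₀| * M := by
    field_simp
    ring
  rw [e2]
  have h5 := abs_add_le (N * M - N₀) (N₀ - δ * x)
  have h6 : ε / 2 * x ≤ M * (ε / 2 * x) := by
    have : 0 ≤ ε / 2 * x := by positivity
    nlinarith
  have h7 : 0 ≤ |C₀| * M := by positivity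
  linarith

end Pool.Agent.Helper97.KT
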