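import Mathlib

open Finset

namespace Pool.Agent.Helper97.KT

/-- the `i`-th prime, counted from `0` -/
noncomputable def P (i : ℕ) : ℕ := Nat.nth Nat.Prime i

lemma P_prime (i : ℕ) : (P i).Prime := Nat.prime_nth_prime i

lemma P_pos (i : ℕ) : 0 < P i := (P_prime i).pos

lemma P_strictMono : StrictMono P := Nat.nth_strictMono Nat.infinite_setOfPred_prime

lemma P_ge (i : ℕ) : i + 2 ≤ P i := Nat.add_two_le_nth_prime i

lemma primeCounting_P (i : ℕ) : Nat.primeCounting (P i) = i + 1 := by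
  have h1 : Nat.primeCounting' (P i) = i := Nat.primeCounting'_nth_eq i
  have h2 : Nat.primeCounting (P i) = Nat.primeCounting' (P i) + 1 := by
    unfold Nat.primeCounting Nat.primeCounting'
    rw [Nat.count_succ]
    simp [P_prime i]
  omega

/-- reciprocal sum of the first `B` terms -/
noncomputable def L (Q : ℕ → ℕ) (B : ℕ) : ℝ := ∑ i ∈ range B, (1 : ℝ) / Q i

/-- an increasing sequence of primes with divergent reciprocal sum -/
structure PS (Q : ℕ → ℕ) : Prop where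
  prime : ∀ i, (Q i).Prime
  mono : StrictMono Q
  ge : ∀ i, i + 2 ≤ Q i
  unb : ∀ R : ℝ, ∃ B, R ≤ L Q B

lemma PS.pos {Q : ℕ → ℕ} (hQ : PS Q) (i : ℕ) : 0 < Q i := (hQ.prime i).pos

lemma L_nonneg (Q : ℕ → ℕ) (B : ℕ) : 0 ≤ L Q B := Finset.sum_nonneg fun i _ => by positivity

lemma L_count (M : ℕ) :
    L P (Nat.count Nat.Prime M)
      = ∑ n ∈ range M, Set.indicator {p | Nat.Prime p} (fun n : ℕ => (1 : ℝ) / n) n := by
  induction M with
  | zero => simp [L]
  | succ M ih =>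
    rw [Finset.sum_range_succ, ← ih, Nat.count_succ]
    by_cases h : Nat.Prime M
    · have hP : P (Nat.count Nat.Prime M) = M := Nat.nth_count h
      simp only [h, if_true]
      unfold L
      rw [Finset.sum_range_succ, hP]
      simp [Set.indicator, h]
    · simp [Set.indicator, h]

lemma L_mono (Q : ℕ → ℕ) : Monotone (L Q) := by
  intro a b hab
  unfold L
  exact Finset.sum_le_sum_of_subset_of_nonneg (Finset.range_mono hab) fun i _ _ => by positivity

lemma L_unbounded (R : ℝ) : ∃ B, R ≤ L P B := by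
  by_contra hcon
  push Not at hcon
  apply not_summable_one_div_on_primes
  apply summable_of_sum_range_le (c := R)
  · intro n
    apply Set.indicator_nonneg
    intro i _
    positivity
  · intro n
    rw [← L_count]
    exact (hcon _).le

lemma PS_shift (k : ℕ) : PS (fun i => P (k + i)) where
  prime i := P_prime _
  mono := fun i j hij => P_strictMono (by omega)
  ge i := by
    have := P_ge (k + i)
    show i + 2 ≤ P (k + i)
    omega
  unb R := by
    obtain ⟨B, hB⟩ := L_unbounded (R + L P k)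
    refine ⟨B, ?_⟩
    have h1 : L P (k + B) = L P k + L (fun i => P (k + i)) B := by
      unfold L
      rw [Finset.sum_range_add]
    have h2 : L P B ≤ L P (k + B) := L_mono P (Nat.le_add_left B k)
    linarith

lemma card_mult (x p : ℕ) :
    (((Ioc 0 x).filter (p ∣ ·)).card : ℕ) = x / p := Nat.Ioc_filter_dvd_card_eq_div x p

/-- number of primes among the first `B` dividing `n` -/
noncomputable def om (Q : ℕ → ℕ) (B n : ℕ) : ℝ := ∑ i ∈ range B, if Q i ∣ n then (1 : ℝ) else 0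

lemma sum_om (Q : ℕ → ℕ) (B x : ℕ) :
    (∑ n ∈ Ioc 0 x, om Q B n) = ∑ i ∈ range B, ((x / Q i : ℕ) : ℝ) := by
  unfold om
  rw [Finset.sum_comm]
  refine Finset.sum_congr rfl fun i _ => ?_
  rw [Finset.sum_boole, card_mult]

lemma sum_om_sq {Q : ℕ → ℕ} (hQ : PS Q) (B x : ℕ) :
    (∑ n ∈ Ioc 0 x, om Q B n ^ 2) ≤ x * L Q B ^ 2 + x * L Q B := by
  have h1 : (∑ n ∈ Ioc 0 x, om Q B n ^ 2)
      = ∑ i ∈ range B, ∑ j ∈ range B,
          ∑ n ∈ Ioc 0 x, (if Q i ∣ n then (1 : ℝ) else 0) * (if Q j ∣ n then (1 : ℝ) else 0) := by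
    have : ∀ n ∈ Ioc 0 x, om Q B n ^ 2 = ∑ i ∈ range B, ∑ j ∈ range B,
        (if Q i ∣ n then (1 : ℝ) else 0) * (if Q j ∣ n then (1 : ℝ) else 0) := by
      intro n _
      rw [sq]
      unfold om
      rw [Finset.sum_mul_sum]
    rw [Finset.sum_congr rfl this, Finset.sum_comm]
    refine Finset.sum_congr rfl fun i _ => ?_
    rw [Finset.sum_comm]
  have h2 : ∀ i ∈ range B, ∀ j ∈ range B,
      (∑ n ∈ Ioc 0 x, (if Q i ∣ n then (1 : ℝ) else 0) * (if Q j ∣ n then (1 : ℝ) else 0))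
        ≤ x * ((1 / Q i) * (1 / Q j)) + (if i = j then x * ((1 : ℝ) / Q i) else 0) := by
    intro i _ j _
    have hi : (0 : ℝ) < Q i := by exact_mod_cast hQ.pos i
    have hj : (0 : ℝ) < Q j := by exact_mod_cast hQ.pos j
    by_cases hij : i = j
    · subst hij
      have : (∑ n ∈ Ioc 0 x, (if Q i ∣ n then (1 : ℝ) else 0) * (if Q i ∣ n then (1 : ℝ) else 0))
          = ((x / Q i : ℕ) : ℝ) := by
        rw [← card_mult, ← Finset.sum_boole]
        refine Finset.sum_congr rfl fun n _ => ?_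
        split_ifs <;> simp
      rw [this]
      have h3 : ((x / Q i : ℕ) : ℝ) ≤ (x : ℝ) / Q i := Nat.cast_div_le
      have h4 : (0 : ℝ) ≤ x * ((1 / Q i) * (1 / Q i)) := by positivity
      simp only [if_true]
      have h5 : (x : ℝ) * (1 / Q i) = x / Q i := by ring
      linarith
    · have hcop : Nat.Coprime (Q i) (Q j) :=
        (Nat.coprime_primes (hQ.prime i) (hQ.prime j)).2 fun h => hij (hQ.mono.injective h)
      have : (∑ n ∈ Ioc 0 x, (if Q i ∣ n then (1 : ℝ) else 0) * (if Q j ∣ n then (1 : ℝ) else 0))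
          = ((x / (Q i * Q j) : ℕ) : ℝ) := by
        rw [← card_mult, ← Finset.sum_boole]
        refine Finset.sum_congr rfl fun n _ => ?_
        have hd : Q i * Q j ∣ n ↔ Q i ∣ n ∧ Q j ∣ n :=
          ⟨fun h => ⟨(Dvd.intro _ rfl).trans h, (Dvd.intro_left _ rfl).trans h⟩,
            fun h => hcop.mul_dvd_of_dvd_of_dvd h.1 h.2⟩
        by_cases h1 : Q i ∣ n <;> by_cases h2 : Q j ∣ n <;> simp [hd, h1, h2]
      rw [this]
      have h3 : ((x / (Q i * Q j) : ℕ) : ℝ) ≤ (x : ℝ) / ((Q i * Q j : ℕ) : ℝ) := Nat.cast_div_le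
      simp only [hij, if_false, add_zero]
      have h5 : (x : ℝ) * ((1 / Q i) * (1 / Q j)) = x / ((Q i * Q j : ℕ) : ℝ) := by
        push_cast
        field_simp
      linarith
  rw [h1]
  calc _ ≤ ∑ i ∈ range B, ∑ j ∈ range B,
        (x * (((1 : ℝ) / Q i) * (1 / Q j)) + (if i = j then x * ((1 : ℝ) / Q i) else 0)) :=
        Finset.sum_le_sum fun i hi => Finset.sum_le_sum fun j hj => h2 i hi j hj
    _ = x * L Q B ^ 2 + x * L Q B := by
        simp only [Finset.sum_add_distrib]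
        congr 1
        · rw [sq]
          unfold L
          rw [Finset.sum_mul_sum, Finset.mul_sum]
          refine Finset.sum_congr rfl fun i _ => ?_
          rw [Finset.mul_sum]
        · unfold L
          rw [Finset.mul_sum]
          refine Finset.sum_congr rfl fun i hi => ?_
          rw [Finset.sum_ite_eq]
          simp [hi]

lemma turan {Q : ℕ → ℕ} (hQ : PS Q) (B x : ℕ) :
    (∑ n ∈ Ioc 0 x, (om Q B n - L Q B) ^ 2) ≤ x * L Q B + 2 * L Q B * B := by
  have h1 : (∑ n ∈ Ioc 0 x, (om Q B n - L Q B) ^ 2)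
      = (∑ n ∈ Ioc 0 x, om Q B n ^ 2) - 2 * L Q B * (∑ n ∈ Ioc 0 x, om Q B n) + x * L Q B ^ 2 := by
    have : ∀ n ∈ Ioc 0 x, (om Q B n - L Q B) ^ 2 = om Q B n ^ 2 - 2 * L Q B * om Q B n + L Q B ^ 2 := by
      intro n _; ring
    rw [Finset.sum_congr rfl this, Finset.sum_add_distrib, Finset.sum_sub_distrib,
      ← Finset.mul_sum]
    simp
  have h2 : (x : ℝ) * L Q B - B ≤ ∑ n ∈ Ioc 0 x, om Q B n := by
    rw [sum_om]
    unfold L
    rw [Finset.mul_sum]
    have : ∑ i ∈ range B, ((x : ℝ) * (1 / Q i) - 1) ≤ ∑ i ∈ range B, ((x / Q i : ℕ) : ℝ) := by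
      refine Finset.sum_le_sum fun i _ => ?_
      have hi : (0 : ℝ) < Q i := by exact_mod_cast hQ.pos i
      have h3 : (x : ℝ) / Q i < ((x / Q i : ℕ) : ℝ) + 1 := by
        rw [div_lt_iff₀ hi]
        have := Nat.lt_mul_div_succ x (hQ.pos i)
        have h4 : x < (x / Q i + 1) * Q i := by linarith
        exact_mod_cast h4
      have h5 : (x : ℝ) * (1 / Q i) = x / Q i := by ring
      linarith
    rw [Finset.sum_sub_distrib] at this
    simpa using this
  have h3 := sum_om_sq hQ B x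
  have hL := L_nonneg Q B
  rw [h1]
  nlinarith [mul_le_mul_of_nonneg_left h2 hL]

lemma sum_abs {Q : ℕ → ℕ} (hQ : PS Q) (B x : ℕ) (hL : 0 < L Q B) :
    (∑ n ∈ Ioc 0 x, |om Q B n - L Q B|) ≤ x * Real.sqrt (L Q B) + B * Real.sqrt (L Q B) := by
  set s := Real.sqrt (L Q B) with hs
  have hs0 : 0 < s := Real.sqrt_pos.2 hL
  have hs2 : s * s = L Q B := Real.mul_self_sqrt hL.le
  have h1 : ∀ n ∈ Ioc 0 x, |om Q B n - L Q B| ≤ (om Q B n - L Q B) ^ 2 / (2 * s) + s / 2 := by
    intro n _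
    have h2 : 0 ≤ (|om Q B n - L Q B| - s) ^ 2 := sq_nonneg _
    have h3 : |om Q B n - L Q B| ^ 2 = (om Q B n - L Q B) ^ 2 := sq_abs _
    have h4 : (om Q B n - L Q B) ^ 2 / (2 * s) + s / 2 = ((om Q B n - L Q B) ^ 2 + s * s) / (2 * s) := by
      field_simp
    rw [h4, le_div_iff₀ (by positivity)]
    nlinarith
  calc _ ≤ ∑ n ∈ Ioc 0 x, ((om Q B n - L Q B) ^ 2 / (2 * s) + s / 2) := Finset.sum_le_sum h1
    _ = (∑ n ∈ Ioc 0 x, (om Q B n - L Q B) ^ 2) / (2 * s) + x * (s / 2) := by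
        rw [Finset.sum_add_distrib, Finset.sum_div]
        simp
    _ ≤ (x * L Q B + 2 * L Q B * B) / (2 * s) + x * (s / 2) := by
        gcongr
        exact turan hQ B x
    _ = x * s + B * s := by
        rw [← hs2]
        field_simp
        ring

/-- summatory function -/
noncomputable def S (F : ℕ → ℂ) (x : ℕ) : ℂ := ∑ n ∈ Ioc 0 x, F n

lemma S_diff {F : ℕ → ℂ} (hF : ∀ n, ‖F n‖ ≤ 1) {y x : ℕ} (h : y ≤ x) :
    ‖S F x - S F y‖ ≤ (x : ℝ) - y := by
  have h1 : S F x - S F y = ∑ n ∈ Ioc y x, F n := by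
    unfold S
    have : Ioc 0 x = Ioc 0 y ∪ Ioc y x := (Finset.Ioc_union_Ioc_eq_Ioc (Nat.zero_le _) h).symm
    rw [this, Finset.sum_union, add_sub_cancel_left]
    exact Finset.Ioc_disjoint_Ioc_of_le le_rfl
  rw [h1]
  calc _ ≤ ∑ n ∈ Ioc y x, ‖F n‖ := norm_sum_le _ _
    _ ≤ ∑ n ∈ Ioc y x, (1 : ℝ) := Finset.sum_le_sum fun n _ => hF n
    _ = (x : ℝ) - y := by
        simp [Nat.cast_sub h]

lemma S_le {F : ℕ → ℂ} (hF : ∀ n, ‖F n‖ ≤ 1) (x : ℕ) : ‖S F x‖ ≤ x := by
  have := S_diff hF (Nat.zero_le x)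
  simpa [S] using this

lemma sum_mult (F : ℕ → ℂ) (x p : ℕ) (hp : 0 < p) :
    (∑ n ∈ Ioc 0 x, F n * (if p ∣ n then (1 : ℂ) else 0)) = ∑ m ∈ Ioc 0 (x / p), F (p * m) := by
  have h1 : (∑ n ∈ Ioc 0 x, F n * (if p ∣ n then (1 : ℂ) else 0))
      = ∑ n ∈ (Ioc 0 x).filter (p ∣ ·), F n := by
    rw [Finset.sum_filter]
    refine Finset.sum_congr rfl fun n _ => ?_
    split_ifs <;> simp
  rw [h1]
  symm
  apply Finset.sum_bij (fun m _ => p * m)
  · intro m hm
    rw [Finset.mem_Ioc] at hm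
    rw [Finset.mem_filter, Finset.mem_Ioc]
    refine ⟨⟨Nat.mul_pos hp hm.1, ?_⟩, Dvd.intro _ rfl⟩
    have := (Nat.le_div_iff_mul_le hp).1 hm.2
    linarith [mul_comm p m]
  · intro a _ b _ hab
    exact Nat.eq_of_mul_eq_mul_left hp hab
  · intro n hn
    rw [Finset.mem_filter, Finset.mem_Ioc] at hn
    obtain ⟨⟨h0, hx⟩, m, rfl⟩ := hn
    refine ⟨m, ?_, rfl⟩
    rw [Finset.mem_Ioc]
    refine ⟨Nat.pos_of_mul_pos_left h0 |> fun h => ?_, ?_⟩
    · rcases Nat.eq_zero_or_pos m with h' | h'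
      · subst h'; simp at h0
      · exact h'
    · rw [Nat.le_div_iff_mul_le hp]
      linarith [mul_comm p m]
  · intro m _
    rfl

lemma per_prime {F : ℕ → ℂ} (hF : ∀ n, ‖F n‖ ≤ 1) {u : ℂ} (hu : ‖u‖ ≤ 1) (p x : ℕ) (hp : 0 < p)
    (hmul : ∀ m, 0 < m → ¬ p ∣ m → F (p * m) = u * F m) :
    ‖(∑ n ∈ Ioc 0 x, F n * (if p ∣ n then (1 : ℂ) else 0)) - u * S F (x / p)‖
      ≤ 2 * ((x / p / p : ℕ) : ℝ) := by
  rw [sum_mult F x p hp]
  unfold S
  rw [Finset.mul_sum, ← Finset.sum_sub_distrib]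
  calc _ ≤ ∑ m ∈ Ioc 0 (x / p), ‖F (p * m) - u * F m‖ := norm_sum_le _ _
    _ ≤ ∑ m ∈ Ioc 0 (x / p), (if p ∣ m then (2 : ℝ) else 0) := by
        refine Finset.sum_le_sum fun m hm => ?_
        rw [Finset.mem_Ioc] at hm
        by_cases h : p ∣ m
        · simp only [h, if_true]
          calc _ ≤ ‖F (p * m)‖ + ‖u * F m‖ := norm_sub_le _ _
            _ ≤ 1 + 1 := by
                gcongr
                · exact hF _
                · rw [norm_mul]
                  calc ‖u‖ * ‖F m‖ ≤ 1 * 1 := by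
                        gcongr
                        exact hF _
                    _ = 1 := by norm_num
            _ = 2 := by norm_num
        · simp [h, hmul m hm.1 h]
    _ = 2 * ((x / p / p : ℕ) : ℝ) := by
        rw [← Finset.sum_filter, Finset.sum_const, card_mult]
        simp [mul_comm]

end Pool.Agent.Helper97.KT
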