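import Pool.Agent.Helper97.KT.Equi

open Finset Filter Topology

namespace Pool.Agent.Helper97.KT

/-- `P (i+1)` runs over the odd primes. -/
lemma P_odd (i : ℕ) : Odd (P (i + 1)) := by
  apply (P_prime (i + 1)).odd_of_ne_two
  have : i + 1 + 2 ≤ P (i + 1) := P_ge (i + 1)
  omega

/-- number of `i < B` with `P (i+1) ∣ m` -/
noncomputable def om' (B m : ℕ) : ℝ := ∑ i ∈ range B, if P (i + 1) ∣ m then (1 : ℝ) else 0

/-- reciprocal sum -/
noncomputable def L' (B : ℕ) : ℝ := ∑ i ∈ range B, (1 : ℝ) / P (i + 1)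

lemma L'_unbounded (R : ℝ) : ∃ B, R ≤ L' B := by
  obtain ⟨B, hB⟩ := L_unbounded (R + 1)
  refine ⟨B, ?_⟩
  have h1 : L P (B + 1) = L' B + 1 / P 0 := by
    unfold L L'
    rw [Finset.sum_range_succ']
  have h2 : L P B ≤ L P (B + 1) := L_mono P (Nat.le_succ B)
  have h3 : (1 : ℝ) / P 0 ≤ 1 := by
    have : (1 : ℝ) ≤ P 0 := by exact_mod_cast (P_pos 0)
    rw [div_le_one (by linarith)]
    exact this
  linarith

lemma equi_all {M : ℕ} (hM : Odd M) (r : ℕ) :
    Asy (fun x => (((Ioc 0 x).filter (fun n => enc n % M = r % M)).card : ℝ)) (1 / M) := by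
  have h0 : Asy (fun x => (((Ioc 0 x).filter (fun _ => True)).card : ℝ)) 1 := by
    have : (fun x : ℕ => (((Ioc 0 x).filter (fun _ => True)).card : ℝ)) = fun x : ℕ => (x : ℝ) := by
      funext x
      simp
    rw [this]
    exact Asy.id
  have h := equi hM r 0 (fun _ => True) (fun _ _ _ _ => Iff.rfl) h0
  simpa using h

lemma asy_dvd {D : ℕ} (hD : Odd D) :
    Asy (fun x => ∑ n ∈ Ioc 0 x, if D ∣ enc n then (1 : ℝ) else 0) (1 / D) := by
  have h := equi_all hD 0
  have e : (fun x : ℕ => (((Ioc 0 x).filter (fun n => enc n % D = 0 % D)).card : ℝ))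
      = (fun x => ∑ n ∈ Ioc 0 x, if D ∣ enc n then (1 : ℝ) else 0) := by
    funext x
    rw [Finset.sum_boole]
    congr 2
    ext n
    simp [Nat.dvd_iff_mod_eq_zero]
  rw [← e]
  exact h

lemma asy_pair (i j : ℕ) :
    Asy (fun x => ∑ n ∈ Ioc 0 x, (if P (i + 1) ∣ enc n then (1 : ℝ) else 0)
        * (if P (j + 1) ∣ enc n then (1 : ℝ) else 0))
      (if i = j then 1 / P (i + 1) else (1 / P (i + 1)) * (1 / P (j + 1))) := by
  by_cases hij : i = j
  · subst hij
    simp only [if_true]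
    have h := asy_dvd (P_odd i)
    have e : (fun x => ∑ n ∈ Ioc 0 x, (if P (i + 1) ∣ enc n then (1 : ℝ) else 0)
        * (if P (i + 1) ∣ enc n then (1 : ℝ) else 0))
        = (fun x => ∑ n ∈ Ioc 0 x, if P (i + 1) ∣ enc n then (1 : ℝ) else 0) := by
      funext x
      refine Finset.sum_congr rfl fun n _ => ?_
      split_ifs <;> simp
    rw [e]
    exact h
  · simp only [hij, if_false]
    have hcop : Nat.Coprime (P (i + 1)) (P (j + 1)) :=
      (Nat.coprime_primes (P_prime _) (P_prime _)).2 fun h => hij (by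
        have := P_strictMono.injective h
        omega)
    have h := asy_dvd ((P_odd i).mul (P_odd j))
    have e : (fun x => ∑ n ∈ Ioc 0 x, (if P (i + 1) ∣ enc n then (1 : ℝ) else 0)
        * (if P (j + 1) ∣ enc n then (1 : ℝ) else 0))
        = (fun x => ∑ n ∈ Ioc 0 x, if P (i + 1) * P (j + 1) ∣ enc n then (1 : ℝ) else 0) := by
      funext x
      refine Finset.sum_congr rfl fun n _ => ?_
      have hd : P (i + 1) * P (j + 1) ∣ enc n ↔ P (i + 1) ∣ enc n ∧ P (j + 1) ∣ enc n :=
        ⟨fun h => ⟨(Dvd.intro _ rfl).trans h, (Dvd.intro_left _ rfl).trans h⟩,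
          fun h => hcop.mul_dvd_of_dvd_of_dvd h.1 h.2⟩
      by_cases h1 : P (i + 1) ∣ enc n <;> by_cases h2 : P (j + 1) ∣ enc n <;> simp [hd, h1, h2]
    rw [e]
    have e2 : (1 : ℝ) / P (i + 1) * (1 / P (j + 1)) = 1 / ((P (i + 1) * P (j + 1) : ℕ) : ℝ) := by
      push_cast
      field_simp
    rw [e2]
    exact h

lemma asy_single (i : ℕ) :
    Asy (fun x => ∑ n ∈ Ioc 0 x, (if P (i + 1) ∣ enc n then (1 : ℝ) else 0))
      (1 / P (i + 1)) := asy_dvd (P_odd i)

/-- Second moment of the number of small odd prime factors of `a(n)`. -/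
lemma asy_second (B : ℕ) :
    ∃ δ : ℝ, δ ≤ L' B ∧ Asy (fun x => ∑ n ∈ Ioc 0 x, (om' B (enc n) - L' B) ^ 2) δ := by
  refine ⟨(∑ i ∈ range B, ∑ j ∈ range B,
      (if i = j then (1 : ℝ) / P (i + 1) else (1 / P (i + 1)) * (1 / P (j + 1))))
      + (-(2 * L' B)) * (∑ i ∈ range B, (1 : ℝ) / P (i + 1)) + L' B ^ 2 * 1, ?_, ?_⟩
  · have h1 : (∑ i ∈ range B, ∑ j ∈ range B,
        (if i = j then (1 : ℝ) / P (i + 1) else (1 / P (i + 1)) * (1 / P (j + 1))))
        ≤ L' B ^ 2 + L' B := by
      calc _ ≤ ∑ i ∈ range B, ∑ j ∈ range B,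
            ((1 / P (i + 1)) * (1 / P (j + 1)) + (if i = j then (1 : ℝ) / P (i + 1) else 0)) := by
            refine Finset.sum_le_sum fun i _ => Finset.sum_le_sum fun j _ => ?_
            by_cases hij : i = j
            · simp only [hij, if_true]
              have : (0 : ℝ) ≤ 1 / P (j + 1) * (1 / P (j + 1)) := by positivity
              linarith
            · simp [hij]
        _ = L' B ^ 2 + L' B := by
            simp only [Finset.sum_add_distrib]
            congr 1
            · rw [sq]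
              unfold L'
              rw [Finset.sum_mul_sum]
            · unfold L'
              refine Finset.sum_congr rfl fun i hi => ?_
              rw [Finset.sum_ite_eq]
              simp [hi]
    have h2 : (∑ i ∈ range B, (1 : ℝ) / P (i + 1)) = L' B := rfl
    rw [h2]
    nlinarith
  · have h1 := Asy.sum (range B) fun i _ => Asy.sum (range B) fun j _ => asy_pair i j
    have h2 := (Asy.sum (range B) fun i _ => asy_single i).const_mul (-(2 * L' B))
    have h3 := Asy.id.const_mul (L' B ^ 2)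
    have h := (h1.add h2).add h3
    have e : (fun x : ℕ => ∑ n ∈ Ioc 0 x, (om' B (enc n) - L' B) ^ 2)
        = (fun x : ℕ => (∑ i ∈ range B, ∑ j ∈ range B, ∑ n ∈ Ioc 0 x,
            (if P (i + 1) ∣ enc n then (1 : ℝ) else 0)
              * (if P (j + 1) ∣ enc n then (1 : ℝ) else 0))
          + (-(2 * L' B)) * (∑ i ∈ range B, ∑ n ∈ Ioc 0 x,
              (if P (i + 1) ∣ enc n then (1 : ℝ) else 0))
          + L' B ^ 2 * (x : ℝ)) := by
      funext x
      have e1 : ∀ n ∈ Ioc 0 x, (om' B (enc n) - L' B) ^ 2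
          = (∑ i ∈ range B, ∑ j ∈ range B, (if P (i + 1) ∣ enc n then (1 : ℝ) else 0)
              * (if P (j + 1) ∣ enc n then (1 : ℝ) else 0))
            + (-(2 * L' B)) * (∑ i ∈ range B, (if P (i + 1) ∣ enc n then (1 : ℝ) else 0))
            + L' B ^ 2 := by
        intro n _
        rw [← Finset.sum_mul_sum]
        unfold om'
        ring
      rw [Finset.sum_congr rfl e1, Finset.sum_add_distrib, Finset.sum_add_distrib,
        ← Finset.mul_sum]
      congr 1
      · congr 1
        · rw [Finset.sum_comm]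
          refine Finset.sum_congr rfl fun i _ => ?_
          rw [Finset.sum_comm]
        · rw [Finset.sum_comm]
      · simp [mul_comm]
    rw [e]
    exact h

lemma om'_le_card (B : ℕ) {m : ℕ} (hm : m ≠ 0) : om' B m ≤ (m.primeFactors.card : ℝ) := by
  unfold om'
  rw [Finset.sum_boole]
  have h : ((range B).filter (fun i => P (i + 1) ∣ m)).card ≤ m.primeFactors.card := by
    apply Finset.card_le_card_of_injOn (fun i => P (i + 1))
    · intro i hi
      simp only [Finset.coe_filter, Set.mem_ofPred_eq] at hi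
      simp only [Finset.mem_coe, Nat.mem_primeFactors]
      exact ⟨P_prime _, hi.2, hm⟩
    · intro i _ j _ hij
      have := P_strictMono.injective hij
      omega
  exact_mod_cast h

lemma enc_eq_zero {n : ℕ} (h : enc n = 0) : n = 0 ∨ n = 1 := by
  unfold enc at h
  rw [Finset.sum_eq_zero_iff] at h
  have h1 : n.primeFactors = ∅ := by
    rw [Finset.eq_empty_iff_forall_notMem]
    intro q hq
    have := h q hq
    exact absurd this (by positivity)
  exact Nat.primeFactors_eq_empty.1 h1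

/-- Almost all `n` have more than `J` distinct primes dividing `a(n)`. -/
theorem asy_omega (J : ℕ) :
    Asy (fun x => (((Ioc 0 x).filter (fun n => (enc n).primeFactors.card ≤ J)).card : ℝ)) 0 := by
  intro ε hε
  obtain ⟨B, hB⟩ := L'_unbounded (2 * J + 8 / ε + 1)
  obtain ⟨δ, hδ, hasy⟩ := asy_second B
  obtain ⟨C, hC⟩ := hasy 1 one_pos
  have hJ : (0 : ℝ) ≤ J := Nat.cast_nonneg J
  have h8 : 0 ≤ 8 / ε := by positivity
  have hL1 : 1 ≤ L' B := by linarith
  have hLJ : L' B / 2 ≤ L' B - J := by linarith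
  have hLε : 8 ≤ ε * L' B := by
    have : 8 / ε ≤ L' B := by linarith
    rw [div_le_iff₀ hε] at this
    linarith
  refine ⟨1 + 4 * |C|, fun x => ?_⟩
  set A := (Ioc 0 x).filter (fun n => (enc n).primeFactors.card ≤ J) with hA
  have hx : (0 : ℝ) ≤ x := Nat.cast_nonneg x
  have hsub : A ⊆ insert 1 ((Ioc 0 x).filter (fun n => om' B (enc n) ≤ J)) := by
    intro n hn
    rw [hA, Finset.mem_filter] at hn
    rw [Finset.mem_insert]
    by_cases h0 : enc n = 0
    · left
      rcases enc_eq_zero h0 with h | h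
      · have := (Finset.mem_Ioc.1 hn.1).1
        omega
      · exact h
    · right
      rw [Finset.mem_filter]
      refine ⟨hn.1, (om'_le_card B h0).trans ?_⟩
      exact_mod_cast hn.2
  have hcard : (A.card : ℝ) ≤ 1 + (((Ioc 0 x).filter (fun n => om' B (enc n) ≤ J)).card : ℝ) := by
    have h1 := (Finset.card_le_card hsub).trans (Finset.card_insert_le _ _)
    have : ((A.card : ℕ) : ℝ) ≤ ((((Ioc 0 x).filter (fun n => om' B (enc n) ≤ J)).card + 1 : ℕ) : ℝ) := by
      exact_mod_cast h1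
    push_cast at this
    linarith
  set A' := (Ioc 0 x).filter (fun n => om' B (enc n) ≤ J) with hA'
  have hcheb : (A'.card : ℝ) * (L' B / 2) ^ 2 ≤ ∑ n ∈ Ioc 0 x, (om' B (enc n) - L' B) ^ 2 := by
    calc (A'.card : ℝ) * (L' B / 2) ^ 2 = ∑ n ∈ A', (L' B / 2) ^ 2 := by
          rw [Finset.sum_const, nsmul_eq_mul]
      _ ≤ ∑ n ∈ A', (om' B (enc n) - L' B) ^ 2 := by
          refine Finset.sum_le_sum fun n hn => ?_
          rw [hA', Finset.mem_filter] at hn
          have h1 : L' B / 2 ≤ L' B - om' B (enc n) := by linarith [hn.2]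
          have h2 : (0 : ℝ) ≤ L' B / 2 := by linarith
          nlinarith
      _ ≤ ∑ n ∈ Ioc 0 x, (om' B (enc n) - L' B) ^ 2 :=
          Finset.sum_le_sum_of_subset_of_nonneg (Finset.filter_subset _ _)
            fun _ _ _ => sq_nonneg _
  have h5 := hC x
  have h6 : (∑ n ∈ Ioc 0 x, (om' B (enc n) - L' B) ^ 2) ≤ (L' B + 1) * x + |C| := by
    have h7 := (abs_le.1 h5).2
    have h8 : δ * x ≤ L' B * x := mul_le_mul_of_nonneg_right hδ hx
    have h9 := le_abs_self C
    linarith
  have h10 : (A'.card : ℝ) * L' B ^ 2 ≤ 4 * ((L' B + 1) * x + |C|) := by nlinarith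
  have h11 : (A'.card : ℝ) * L' B ^ 2 ≤ (ε * x + 4 * |C|) * L' B ^ 2 := by
    refine h10.trans ?_
    have e1 : 4 * (L' B + 1) ≤ 8 * L' B := by linarith
    have e2 : 8 * L' B ≤ ε * L' B ^ 2 := by nlinarith
    have e3 : 4 * (L' B + 1) * x ≤ ε * L' B ^ 2 * x := mul_le_mul_of_nonneg_right (e1.trans e2) hx
    have e4 : 1 ≤ L' B ^ 2 := by nlinarith
    have e5 : 4 * |C| * 1 ≤ 4 * |C| * L' B ^ 2 := mul_le_mul_of_nonneg_left e4 (by positivity)
    nlinarith
  have h12 : (A'.card : ℝ) ≤ ε * x + 4 * |C| := le_of_mul_le_mul_right h11 (by positivity)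
  have h13 : (0 : ℝ) ≤ (A.card : ℝ) := Nat.cast_nonneg _
  show |(A.card : ℝ) - 0 * x| ≤ _
  rw [zero_mul, sub_zero, abs_of_nonneg h13]
  linarith

end Pool.Agent.Helper97.KT
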