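import Pool.Agent.Helper97.KT.Pattern

open Finset Filter Topology

namespace Pool.Agent.Helper97.KT

lemma index_injOn {q q' : ℕ} (hq : q.Prime) (hq' : q'.Prime)
    (h : Nat.primeCounting q - 1 = Nat.primeCounting q' - 1) : q = q' := by
  have h1 : ∀ q : ℕ, q.Prime → Nat.primeCounting q - 1 = Nat.count Nat.Prime q := by
    intro q hq
    unfold Nat.primeCounting Nat.primeCounting'
    rw [Nat.count_succ]
    simp [hq]
  rw [h1 q hq, h1 q' hq'] at h
  exact Nat.count_injective hq hq' h

lemma enc_eq_sum (n : ℕ) :
    enc n = ∑ i ∈ n.primeFactors.image (fun q => Nat.primeCounting q - 1), 2 ^ i := by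
  unfold enc
  rw [Finset.sum_image]
  intro q hq q' hq' h
  exact index_injOn (Nat.prime_of_mem_primeFactors hq) (Nat.prime_of_mem_primeFactors hq') h

lemma card_image_index (n : ℕ) :
    (n.primeFactors.image (fun q => Nat.primeCounting q - 1)).card = n.primeFactors.card := by
  apply Finset.card_image_of_injOn
  intro q hq q' hq' h
  exact index_injOn (Nat.prime_of_mem_primeFactors hq) (Nat.prime_of_mem_primeFactors hq') h

/-- If `a(m)` is a power of two then `m` has exactly one prime factor. -/
lemma card_of_enc_eq_pow {m e : ℕ} (h : enc m = 2 ^ e) : m.primeFactors.card = 1 := by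
  rw [enc_eq_sum] at h
  have h1 : (∑ i ∈ m.primeFactors.image (fun q => Nat.primeCounting q - 1), 2 ^ i)
      = ∑ i ∈ ({e} : Finset ℕ), 2 ^ i := by
    rw [Finset.sum_singleton]
    exact h
  have h2 := Finset.geomSum_injective (n := 2) le_rfl h1
  rw [← card_image_index, h2, Finset.card_singleton]

lemma enc_zero : enc 0 = 0 := by simp [enc]

lemma enc_one : enc 1 = 0 := by simp [enc]

/-- If `a(m) = 1` then `m` is a power of two. -/
lemma eq_pow_of_enc_eq_one {m : ℕ} (h : enc m = 1) : ∃ e, m = 2 ^ e := by
  have hm0 : m ≠ 0 := by rintro rfl; rw [enc_zero] at h; omega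
  have h' := h
  rw [enc_eq_sum] at h
  have h1 : (∑ i ∈ m.primeFactors.image (fun q => Nat.primeCounting q - 1), 2 ^ i)
      = ∑ i ∈ ({0} : Finset ℕ), 2 ^ i := by
    rw [Finset.sum_singleton]
    simpa using h
  have h2 := Finset.geomSum_injective (n := 2) le_rfl h1
  refine ⟨_, Nat.eq_prime_pow_of_unique_prime_dvd hm0 (p := 2) ?_⟩
  intro q hq hqm
  have hmem : q ∈ m.primeFactors := Nat.mem_primeFactors.2 ⟨hq, hqm, hm0⟩
  have h3 : Nat.primeCounting q - 1 ∈ m.primeFactors.image (fun q => Nat.primeCounting q - 1) :=
    Finset.mem_image_of_mem _ hmem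
  rw [h2, Finset.mem_singleton] at h3
  apply index_injOn hq Nat.prime_two
  rw [h3]
  decide

/-- `a^[4](n) = 0` forces `a(n)` to have at most one prime factor. -/
lemma four_steps {n : ℕ} (h : enc^[4] n = 0) : (enc n).primeFactors.card ≤ 1 := by
  have h4 : enc (enc (enc (enc n))) = 0 := h
  rcases enc_eq_zero h4 with h3 | h3
  · rcases enc_eq_zero h3 with h2 | h2
    · rcases enc_eq_zero h2 with h1 | h1
      · rw [h1]; simp
      · rw [h1]; simp
    · exact (card_of_enc_eq_pow (e := 0) (by simpa using h2)).le
  · obtain ⟨e, he⟩ := eq_pow_of_enc_eq_one h3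
    exact (card_of_enc_eq_pow he).le

/-- The last binary digit. -/
lemma enc_parity {n : ℕ} (hn : 0 < n) : Even (enc n) ↔ Odd n := by
  unfold enc
  constructor
  · intro h
    by_contra hcon
    rw [Nat.not_odd_iff_even] at hcon
    have h2 : 2 ∈ n.primeFactors :=
      Nat.mem_primeFactors.2 ⟨Nat.prime_two, hcon.two_dvd, hn.ne'⟩
    rw [← Finset.add_sum_erase _ _ h2] at h
    have h3 : Even (∑ q ∈ n.primeFactors.erase 2, 2 ^ (Nat.primeCounting q - 1)) := by
      apply Finset.even_sum
      intro q hq
      rw [Finset.mem_erase] at hq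
      have hqp := Nat.prime_of_mem_primeFactors hq.2
      have h4 : Nat.primeCounting q - 1 ≠ 0 := by
        intro h5
        exact hq.1 (index_injOn hqp Nat.prime_two (by rw [h5]; decide))
      exact (even_two).pow_of_ne_zero h4
    have h5 : (2 : ℕ) ^ (Nat.primeCounting 2 - 1) = 1 := by decide
    rw [h5] at h
    rw [Nat.even_add, iff_true_right h3] at h
    exact absurd h (by decide)
  · intro h
    apply Finset.even_sum
    intro q hq
    have hqp := Nat.prime_of_mem_primeFactors hq
    have hq2 : q ≠ 2 := by
      rintro rfl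
      have := Nat.dvd_of_mem_primeFactors hq
      obtain ⟨k, hk⟩ := h
      omega
    have h4 : Nat.primeCounting q - 1 ≠ 0 := by
      intro h5
      exact hq2 (index_injOn hqp Nat.prime_two (by rw [h5]; decide))
    exact (even_two).pow_of_ne_zero h4

/-- Parity alternates along the orbit as long as it has not reached `0`. -/
lemma orbit_parity {n : ℕ} (k : ℕ) (h : ∀ j < k, enc^[j] n ≠ 0) :
    enc^[k] n % 2 = (n + k) % 2 ∨ k = 0 := by
  induction k with
  | zero => right; rfl
  | succ k ih =>
    left
    have hk : enc^[k] n ≠ 0 := h k (Nat.lt_succ_self k)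
    have h1 : enc^[k] n % 2 = (n + k) % 2 := by
      rcases ih (fun j hj => h j (by omega)) with h' | h'
      · exact h'
      · subst h'; simp
    rw [Function.iterate_succ_apply']
    have h2 := enc_parity (Nat.pos_of_ne_zero hk)
    rw [Nat.even_iff, Nat.odd_iff] at h2
    omega

lemma iter_zero (k : ℕ) : enc^[k] 0 = 0 := by
  induction k with
  | zero => rfl
  | succ k ih => rw [Function.iterate_succ_apply, enc_zero, ih]

/-- The number of steps to reach `0` has the parity of `n`. -/
lemma reach_parity {n k : ℕ} (hk : enc^[k] n = 0) (hmin : ∀ j < k, enc^[j] n ≠ 0) :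
    k % 2 = n % 2 := by
  rcases orbit_parity k hmin with h | h
  · rw [hk] at h
    omega
  · subst h
    have : n = 0 := hk
    omega

/-- Cycles avoiding `0` have even length. -/
lemma cycle_even {n k : ℕ} (hn : n ≠ 0) (hk : enc^[k] n = n) : Even k := by
  have h : ∀ j < k, enc^[j] n ≠ 0 := by
    intro j hj h0
    apply hn
    have : enc^[k] n = enc^[k - j] (enc^[j] n) := by
      rw [← Function.iterate_add_apply]
      congr 1
      omega
    rw [h0, iter_zero] at this
    rw [← hk, this]
  rcases orbit_parity k h with h' | h'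
  · rw [hk] at h'
    rw [Nat.even_iff]
    omega
  · subst h'; exact Even.zero

/-- For even `n`, reaching `0` within five steps is the same as within four. -/
lemma five_steps {n : ℕ} (hn : Even n) (h : enc^[5] n = 0) : enc^[4] n = 0 := by
  by_contra hcon
  have hmin : ∀ j < 5, enc^[j] n ≠ 0 := by
    intro j hj h0
    apply hcon
    have : enc^[4] n = enc^[4 - j] (enc^[j] n) := by
      rw [← Function.iterate_add_apply]
      congr 1
      omega
    rw [this, h0, iter_zero]
  have := reach_parity h hmin
  rw [Nat.even_iff] at hn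
  omega

end Pool.Agent.Helper97.KT
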