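import Pool.Agent.Helper97.KT.Omega

open Finset Filter Topology

namespace Pool.Agent.Helper97.KT

/-- the first `k` primes which divide `n` are exactly the ones with index in `T` -/
def Pat (k : ℕ) (T : Set ℕ) (n : ℕ) : Prop := ∀ i < k, (P i ∣ n ↔ i ∈ T)

open Classical in
/-- the product of the local densities -/
noncomputable def patDens (k : ℕ) (T : Set ℕ) : ℝ :=
  ∏ i ∈ range k, if i ∈ T then (1 : ℝ) / P i else 1 - 1 / P i

lemma asy_mult {D : ℕ} (hD : 0 < D) :
    Asy (fun x => (((Ioc 0 x).filter (D ∣ ·)).card : ℝ)) (1 / D) := by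
  intro ε hε
  refine ⟨1, fun x => ?_⟩
  show |(((Ioc 0 x).filter (D ∣ ·)).card : ℝ) - 1 / D * x| ≤ _
  rw [card_mult]
  have hDR : (0 : ℝ) < D := by exact_mod_cast hD
  have h1 : ((x / D : ℕ) : ℝ) ≤ (x : ℝ) / D := Nat.cast_div_le
  have h2 : (x : ℝ) / D < ((x / D : ℕ) : ℝ) + 1 := by
    rw [div_lt_iff₀ hDR]
    have := Nat.lt_mul_div_succ x hD
    have h4 : x < (x / D + 1) * D := by linarith
    exact_mod_cast h4
  have h5 : 1 / (D : ℝ) * x = x / D := by ring
  have h6 : 0 ≤ ε * x := by positivity
  rw [h5, abs_le]
  constructor <;> linarith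

open Classical in
lemma asy_pat (T : Set ℕ) (k : ℕ) : ∀ D : ℕ, 0 < D → (∀ i < k, Nat.Coprime (P i) D) →
    Asy (fun x => (((Ioc 0 x).filter (fun n => D ∣ n ∧ Pat k T n)).card : ℝ))
      (1 / D * patDens k T) := by
  induction k with
  | zero =>
    intro D hD _
    have h := asy_mult hD
    have e : (fun x : ℕ => (((Ioc 0 x).filter (fun n => D ∣ n ∧ Pat 0 T n)).card : ℝ))
        = (fun x : ℕ => (((Ioc 0 x).filter (D ∣ ·)).card : ℝ)) := by
      funext x
      congr 2
      ext n
      simp [Pat]
    rw [e]
    simpa [patDens] using h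
  | succ k ih =>
    intro D hD hcop
    have hcopk : Nat.Coprime (P k) D := hcop k (Nat.lt_succ_self k)
    have hD' : 0 < P k * D := Nat.mul_pos (P_pos k) hD
    have h1 := ih D hD (fun i hi => hcop i (by omega))
    have h2 := ih (P k * D) hD' (fun i hi => by
      apply Nat.Coprime.mul_right _ (hcop i (by omega))
      exact (Nat.coprime_primes (P_prime i) (P_prime k)).2 fun h => by
        have := P_strictMono.injective h
        omega)
    have hPat : ∀ n, Pat (k + 1) T n ↔ Pat k T n ∧ (P k ∣ n ↔ k ∈ T) := by
      intro n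
      constructor
      · intro h
        exact ⟨fun i hi => h i (by omega), h k (Nat.lt_succ_self k)⟩
      · rintro ⟨h, hk⟩ i hi
        rcases Nat.lt_succ_iff_lt_or_eq.1 hi with h' | rfl
        · exact h i h'
        · exact hk
    have hdvd : ∀ n, P k * D ∣ n ↔ P k ∣ n ∧ D ∣ n := fun n =>
      ⟨fun h => ⟨(Dvd.intro _ rfl).trans h, (Dvd.intro_left _ rfl).trans h⟩,
        fun h => hcopk.mul_dvd_of_dvd_of_dvd h.1 h.2⟩
    by_cases hk : k ∈ T
    · have e : (fun x : ℕ => (((Ioc 0 x).filter (fun n => D ∣ n ∧ Pat (k + 1) T n)).card : ℝ))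
          = (fun x : ℕ => (((Ioc 0 x).filter (fun n => P k * D ∣ n ∧ Pat k T n)).card : ℝ)) := by
        funext x
        congr 2
        ext n
        rw [Finset.mem_filter, Finset.mem_filter, hPat, hdvd]
        simp only [hk, iff_true]
        tauto
      rw [e]
      have e2 : (1 : ℝ) / D * patDens (k + 1) T = 1 / ((P k * D : ℕ) : ℝ) * patDens k T := by
        unfold patDens
        rw [Finset.prod_range_succ, if_pos hk]
        push_cast
        field_simp
      rw [e2]
      exact h2
    · have h3 := h1.add (h2.const_mul (-1))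
      have e : (fun x : ℕ => (((Ioc 0 x).filter (fun n => D ∣ n ∧ Pat (k + 1) T n)).card : ℝ))
          = (fun x : ℕ => (((Ioc 0 x).filter (fun n => D ∣ n ∧ Pat k T n)).card : ℝ)
            + (-1) * (((Ioc 0 x).filter (fun n => P k * D ∣ n ∧ Pat k T n)).card : ℝ)) := by
        funext x
        have h4 : (Ioc 0 x).filter (fun n => D ∣ n ∧ Pat k T n)
            = (Ioc 0 x).filter (fun n => D ∣ n ∧ Pat (k + 1) T n)
              ∪ (Ioc 0 x).filter (fun n => P k * D ∣ n ∧ Pat k T n) := by
          ext n
          simp only [Finset.mem_union, Finset.mem_filter, hPat, hdvd, hk, iff_false]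
          tauto
        have h5 : Disjoint ((Ioc 0 x).filter (fun n => D ∣ n ∧ Pat (k + 1) T n))
            ((Ioc 0 x).filter (fun n => P k * D ∣ n ∧ Pat k T n)) := by
          rw [Finset.disjoint_left]
          intro n hn hn'
          simp only [Finset.mem_filter, hPat, hdvd, hk, iff_false] at hn hn'
          tauto
        rw [h4, Finset.card_union_of_disjoint h5]
        push_cast
        ring
      rw [e]
      have e2 : (1 : ℝ) / D * patDens (k + 1) T
          = 1 / D * patDens k T + -1 * (1 / ((P k * D : ℕ) : ℝ) * patDens k T) := by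
        unfold patDens
        rw [Finset.prod_range_succ, if_neg hk]
        have hP : (P k : ℝ) ≠ 0 := by exact_mod_cast (P_pos k).ne'
        have hDR : (D : ℝ) ≠ 0 := by exact_mod_cast hD.ne'
        push_cast
        field_simp
        ring
      rw [e2]
      exact h3

open Classical in
/-- The joint law: divisibility of `n` by the first `k` primes (the last `k` binary digits of
`a(n)`) and the residue of `a(n)` modulo an odd number. -/
theorem asy_joint {M : ℕ} (hM : Odd M) (r k : ℕ) (T : Set ℕ) :
    Asy (fun x => (((Ioc 0 x).filter (fun n => Pat k T n ∧ enc n % M = r % M)).card : ℝ))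
      (patDens k T / M) := by
  apply equi hM r k
  · intro i m hm h
    unfold Pat
    refine forall_congr' fun j => forall_congr' fun hj => ?_
    have hne : Nat.Coprime (P j) (P (k + i)) :=
      (Nat.coprime_primes (P_prime j) (P_prime _)).2 fun h => by
        have := P_strictMono.injective h
        omega
    rw [hne.dvd_mul_left]
  · have h := asy_pat T k 1 one_pos (fun i _ => Nat.coprime_one_right _)
    simpa using h

end Pool.Agent.Helper97.KT
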